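import Pool.Agent.Helper59.MixInt.Expect

/-!
# Common definitions for the lower bound: spaced shapes and grid hats
-/

open MeasureTheory UnitAddTorus
open scoped ENNReal

noncomputable section

namespace Pool.Agent.Helper59.MixInt

variable {n : ℕ}

open Classical in
/-- Level `g * D`, shapes `(g t, g (D - t))`, `t ≤ D`: the isolating ones for the point `P i`. -/
def isoT (P : Fin n → Tor 2) (i : Fin n) (g D : ℕ) : Finset ℕ :=
  (Finset.range (D + 1)).filter fun t => ∀ j, j ≠ i → ¬ near (g * t) (g * (D - t)) (P i) (P j)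

/-- index set of the grid of shape `(a, b)` -/
def grid (a b : ℕ) : Finset (ℕ × ℕ) := Finset.range (2 ^ (a + 1)) ×ˢ Finset.range (2 ^ (b + 1))

/-- grid points of shape `(a, b)` -/
def gp (a b : ℕ) (c : ℕ × ℕ) : Tor 2 :=
  ![(((c.1 : ℝ) / 2 ^ (a + 1) : ℝ) : UnitAddCircle), (((c.2 : ℝ) / 2 ^ (b + 1) : ℝ) : UnitAddCircle)]

/-- the grid hat of shape `(g t, g (D - t))` at the grid point `c` -/
def gh (g D t : ℕ) (c : ℕ × ℕ) : Tor 2 → ℝ :=
  prod2 (hat (g * t)) (hat (g * (D - t))) (gp (g * t) (g * (D - t)) c)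

/-- linear combination of grid hats of level `g * D` -/
def gsum (g D : ℕ) (u : ℕ → ℕ × ℕ → ℝ) (x : Tor 2) : ℝ :=
  ∑ t ∈ Finset.range (D + 1), ∑ c ∈ grid (g * t) (g * (D - t)), u t c * gh g D t c x

/-- trigonometric sum over the hyperbolic layer -/
def tsm (r : ℕ) (u v : (Fin 2 → ℤ) → ℝ) (x : Tor 2) : ℝ :=
  ∑ h ∈ Lam r, (u h * (mFourier h x).re + v h * (mFourier h x).im)

end Pool.Agent.Helper59.MixInt
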