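import Pool.Agent.Helper59.MixRan.Geo
import Pool.Agent.Helper6.MixRan.NormA

/-!
# The norm of a linear combination of grid hats
-/

open MeasureTheory UnitAddTorus Filter Topology Set
open scoped ENNReal

noncomputable section

namespace Pool.Agent.Helper59.MixInt

open Pool.Agent.Helper6.MixRan

/-- the 16 classes -/
private def QQ4 : Finset (ℕ × ℕ) := Finset.range 4 ×ˢ Finset.range 4

/-- the grid points of shape `(a, b)` in the class `q` -/
private def clg (q : ℕ × ℕ) (a b : ℕ) : Finset (ℕ × ℕ) :=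
  (grid a b).filter fun c => (c.1 % 4, c.2 % 4) = q

private theorem sep_gp {a b : ℕ} {q c c' : ℕ × ℕ} (hc : c ∈ clg q a b) (hc' : c' ∈ clg q a b)
    (hne : c ≠ c') : ¬ near a b (gp a b c) (gp a b c') := by
  obtain ⟨h1, h2⟩ := Finset.mem_filter.1 hc
  obtain ⟨h1', h2'⟩ := Finset.mem_filter.1 hc'
  obtain ⟨h3, h4⟩ := Finset.mem_product.1 h1
  obtain ⟨h3', h4'⟩ := Finset.mem_product.1 h1'
  rw [Finset.mem_range] at h3 h4 h3' h4'
  obtain ⟨e1, e2⟩ := Prod.mk.inj (h2.trans h2'.symm)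
  rintro ⟨n1, n2⟩
  simp only [gp, Matrix.cons_val_zero, Matrix.cons_val_one] at n1 n2
  by_cases hii : c.1 = c'.1
  · have hjj : c.2 ≠ c'.2 := fun h => hne (Prod.ext hii h)
    exact absurd n2 (not_le.2 (sep1 e2 h4 h4' hjj))
  · exact absurd n1 (not_le.2 (sep1 e1 h3 h3' hii))

/-- one class of the grid sum -/
private def gq (g D : ℕ) (u : ℕ → ℕ × ℕ → ℝ) (q : ℕ × ℕ) (x : Tor 2) : ℝ :=
  ∑ t ∈ Finset.range (D + 1), ∑ c ∈ clg q (g * t) (g * (D - t)), u t c * gh g D t c x

private theorem gsum_eq (g D : ℕ) (u : ℕ → ℕ × ℕ → ℝ) (x : Tor 2) :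
    gsum g D u x = ∑ q ∈ QQ4, gq g D u q x := by
  unfold gsum gq
  rw [Finset.sum_comm]
  refine Finset.sum_congr rfl fun t _ => ?_
  unfold clg
  rw [Finset.sum_fiberwise_of_maps_to (s := grid (g * t) (g * (D - t))) (t := QQ4)
    (g := fun c => (c.1 % 4, c.2 % 4))]
  intro c _
  exact Finset.mem_product.2 ⟨Finset.mem_range.2 (Nat.mod_lt _ (by norm_num)),
    Finset.mem_range.2 (Nat.mod_lt _ (by norm_num))⟩

private theorem continuous_gq (g D : ℕ) (u : ℕ → ℕ × ℕ → ℝ) (q : ℕ × ℕ) :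
    Continuous (gq g D u q) := by
  unfold gq gh
  refine continuous_finsetSum _ fun t _ => continuous_finsetSum _ fun c _ => ?_
  exact continuous_const.mul (continuous_prod2_hat _ _ _)

/-- the shapes -/
private def shg (g D : ℕ) : Finset (ℕ × ℕ) :=
  (Finset.range (D + 1)).image fun t => (g * t, g * (D - t))

private theorem inj_shg {g D : ℕ} (hg : 1 ≤ g) :
    Set.InjOn (fun t => (g * t, g * (D - t))) (Finset.range (D + 1) : Set ℕ) := by
  intro a _ b _ h
  exact Nat.eq_of_mul_eq_mul_left hg (Prod.mk.inj h).1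

private theorem norm_gq {k : ℝ} (hk : 1 / 2 < k) (hk1 : k < 1) (g D : ℕ) (hg : 1 ≤ g)
    (u : ℕ → ℕ × ℕ → ℝ) (hu : ∀ t c, |u t c| ≤ 1) (q : ℕ × ℕ) :
    mixNormSq k (gq g D u q) ≤
      ENNReal.ofReal (100 * CS k ^ 2 * ∑ t ∈ Finset.range (D + 1), ((4 : ℝ) ^ (g * D)) ^ k *
        (1 / 2 ^ (g * D) * ((clg q (g * t) (g * (D - t))).card : ℝ))) := by
  set I : ℕ × ℕ → Finset ((ℕ × ℕ) × (ℕ × ℕ)) := fun s => (clg q s.1 s.2).image fun c => (s, c)
    with hI
  set c : ℕ × ℕ → (ℕ × ℕ) × (ℕ × ℕ) → ℝ := fun s i => u (s.1 / g) i.2 with hc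
  set P : (ℕ × ℕ) × (ℕ × ℕ) → Tor 2 := fun i => gp i.1.1 i.1.2 i.2 with hP
  have hsep : ∀ s ∈ shg g D, ∀ i ∈ I s, ∀ j ∈ I s, i ≠ j → ¬ near s.1 s.2 (P i) (P j) := by
    intro s _ i hi j hj hne
    obtain ⟨a, ha, rfl⟩ := Finset.mem_image.1 hi
    obtain ⟨b, hb, rfl⟩ := Finset.mem_image.1 hj
    refine sep_gp ha hb fun h => hne ?_
    have h' : a = b := h
    rw [h']
  have hinj : ∀ s : ℕ × ℕ, Set.InjOn (fun c : ℕ × ℕ => (s, c)) (clg q s.1 s.2 : Set (ℕ × ℕ)) :=
    fun s a _ b _ h => (Prod.mk.inj h).2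
  have h1 : gq g D u q = fun x => ∑ s ∈ shg g D, bsum (I s) (c s) P (hat s.1) (hat s.2) x := by
    funext x
    unfold gq shg
    rw [Finset.sum_image (inj_shg hg)]
    refine Finset.sum_congr rfl fun t _ => ?_
    unfold bsum
    rw [hI]
    simp only
    rw [Finset.sum_image (hinj (g * t, g * (D - t)))]
    refine Finset.sum_congr rfl fun d _ => ?_
    have e : g * t / g = t := Nat.mul_div_cancel_left t hg
    simp only [hc, hP, e]
    rfl
  rw [h1]
  refine (mixNormSq_shapes_le hk hk1 (shg g D) I c P hsep).trans ?_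
  apply ENNReal.ofReal_le_ofReal
  apply mul_le_mul_of_nonneg_left _ (by positivity)
  unfold shg
  rw [Finset.sum_image (inj_shg hg)]
  refine Finset.sum_le_sum fun t ht => ?_
  have htD : t ≤ D := by
    have := Finset.mem_range.1 ht
    omega
  have e : g * t + g * (D - t) = g * D := by
    rw [← Nat.mul_add]
    congr 1
    omega
  simp only [e]
  have h2 : ∑ i ∈ I (g * t, g * (D - t)), c (g * t, g * (D - t)) i ^ 2 ≤
      ((clg q (g * t) (g * (D - t))).card : ℝ) := by
    rw [hI]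
    simp only
    rw [Finset.sum_image (hinj (g * t, g * (D - t)))]
    calc ∑ d ∈ clg q (g * t) (g * (D - t)), c (g * t, g * (D - t)) ((g * t, g * (D - t)), d) ^ 2
        ≤ ∑ d ∈ clg q (g * t) (g * (D - t)), (1 : ℝ) := by
          refine Finset.sum_le_sum fun d _ => ?_
          rw [← sq_abs]
          exact pow_le_one₀ (abs_nonneg _) (hu _ _)
      _ = _ := by simp
  gcongr

/-- M4b: the norm of a linear combination of grid hats with coefficients at most one. -/
theorem mixNormSq_gsum_le {k : ℝ} (hk : 1 / 2 < k) (hk1 : k < 1) (g D : ℕ) (hg : 1 ≤ g)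
    (u : ℕ → ℕ × ℕ → ℝ) (hu : ∀ t c, |u t c| ≤ 1) :
    mixNormSq k (gsum g D u) ≤
      ENNReal.ofReal (6400 * CS k ^ 2 * (D + 1) * ((4 : ℝ) ^ (g * D)) ^ k) := by
  have h1 : gsum g D u = fun x => ∑ q ∈ QQ4, gq g D u q x := funext (gsum_eq g D u)
  rw [h1]
  refine (mixNormSq_sum_le QQ4 (gq g D u) fun q _ => continuous_gq g D u q).trans ?_
  have hc : QQ4.card = 16 := by decide
  have hCS : 0 ≤ CS k := (CS_pos hk1).le
  have hcard : ∀ t ∈ Finset.range (D + 1),
      ∑ q ∈ QQ4, ((clg q (g * t) (g * (D - t))).card : ℝ) = 4 * 2 ^ (g * D) := by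
    intro t ht
    have htD : t ≤ D := by
      have := Finset.mem_range.1 ht
      omega
    have e : g * t + g * (D - t) = g * D := by
      rw [← Nat.mul_add]
      congr 1
      omega
    have h2 : ∑ q ∈ QQ4, (clg q (g * t) (g * (D - t))).card =
        (grid (g * t) (g * (D - t))).card := by
      unfold clg
      rw [← Finset.card_eq_sum_card_fiberwise]
      intro c _
      exact Finset.mem_coe.2 (Finset.mem_product.2 ⟨Finset.mem_range.2 (Nat.mod_lt _ (by norm_num)),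
        Finset.mem_range.2 (Nat.mod_lt _ (by norm_num))⟩)
    have h3 : (grid (g * t) (g * (D - t))).card = 4 * 2 ^ (g * D) := by
      unfold grid
      rw [Finset.card_product, Finset.card_range, Finset.card_range, ← pow_add, ← e]
      ring
    have h5 : ∑ q ∈ QQ4, (clg q (g * t) (g * (D - t))).card = 4 * 2 ^ (g * D) := h2.trans h3
    exact_mod_cast h5
  calc ENNReal.ofReal (QQ4.card : ℝ) * ∑ q ∈ QQ4, mixNormSq k (gq g D u q)
      ≤ ENNReal.ofReal (QQ4.card : ℝ) * ∑ q ∈ QQ4, ENNReal.ofReal (100 * CS k ^ 2 *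
          ∑ t ∈ Finset.range (D + 1), ((4 : ℝ) ^ (g * D)) ^ k *
            (1 / 2 ^ (g * D) * ((clg q (g * t) (g * (D - t))).card : ℝ))) := by
        gcongr with q _
        exact norm_gq hk hk1 g D hg u hu q
    _ = ENNReal.ofReal (16 * (100 * CS k ^ 2 * ∑ q ∈ QQ4,
          ∑ t ∈ Finset.range (D + 1), ((4 : ℝ) ^ (g * D)) ^ k *
            (1 / 2 ^ (g * D) * ((clg q (g * t) (g * (D - t))).card : ℝ)))) := by
        rw [← ENNReal.ofReal_sum_of_nonneg (fun q _ => by positivity), hc,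
          ← ENNReal.ofReal_mul (by positivity), ← Finset.mul_sum]
        norm_num
    _ = _ := by
        congr 1
        rw [Finset.sum_comm]
        have h4 : ∀ t ∈ Finset.range (D + 1), ∑ q ∈ QQ4, ((4 : ℝ) ^ (g * D)) ^ k *
            (1 / 2 ^ (g * D) * ((clg q (g * t) (g * (D - t))).card : ℝ)) =
            4 * ((4 : ℝ) ^ (g * D)) ^ k := by
          intro t ht
          rw [← Finset.mul_sum, ← Finset.mul_sum, hcard t ht]
          have : (0 : ℝ) < 2 ^ (g * D) := by positivity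
          field_simp
        rw [Finset.sum_congr rfl h4, Finset.sum_const, Finset.card_range, nsmul_eq_mul]
        push_cast
        ring

end Pool.Agent.Helper59.MixInt
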