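import Pool.Agent.Helper59.MixRan.Geo

/-!
# The nearest grid point
-/

namespace Pool.Agent.Helper59.MixInt

/-- nearest grid point on the circle -/
theorem exists_gp_one (a : ℕ) (x : UnitAddCircle) : ∃ c ∈ Finset.range (2 ^ (a + 1)),
    ‖x - (((c : ℝ) / 2 ^ (a + 1) : ℝ) : UnitAddCircle)‖ ≤ 1 / 2 ^ (a + 2) := by
  obtain ⟨y, rfl⟩ := QuotientAddGroup.mk_surjective x
  obtain ⟨N, hN⟩ : ∃ N : ℕ, N = 2 ^ (a + 1) := ⟨_, rfl⟩
  have hN0 : 0 < N := by rw [hN]; positivity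
  have hNr : (0 : ℝ) < (N : ℝ) := by exact_mod_cast hN0
  have hNr' : (N : ℝ) = 2 ^ (a + 1) := by rw [hN]; push_cast; ring
  obtain ⟨k, hk⟩ : ∃ k : ℤ, k = round (y * N) := ⟨_, rfl⟩
  have hNz : (0 : ℤ) < (N : ℤ) := by exact_mod_cast hN0
  have hm0 := Int.emod_nonneg k hNz.ne'
  have hm1 := Int.emod_lt_of_pos k hNz
  refine ⟨(k % N).toNat, ?_, ?_⟩
  · rw [Finset.mem_range, ← hN]
    omega
  · have h1 : (((k % N).toNat : ℕ) : ℝ) = ((k % N : ℤ) : ℝ) := by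
      have : (((k % N).toNat : ℕ) : ℤ) = k % N := Int.toNat_of_nonneg hm0
      exact_mod_cast this
    have h2 : ((k % N : ℤ) : ℝ) = (k : ℝ) - N * ((k / N : ℤ) : ℝ) := by
      have := Int.emod_def k N
      rw [this]
      push_cast
      ring
    rw [h1, h2, ← hNr']
    have h3 : (((k : ℝ) - N * ((k / N : ℤ) : ℝ)) / N : ℝ) = (k : ℝ) / N - ((k / N : ℤ) : ℝ) := by
      field_simp
    rw [h3]
    have h4 : ((((k : ℝ) / N - ((k / N : ℤ) : ℝ) : ℝ)) : UnitAddCircle) =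
        (((k : ℝ) / N : ℝ) : UnitAddCircle) := by
      rw [AddCircle.coe_sub]
      have : ((((k / N : ℤ) : ℝ)) : UnitAddCircle) = 0 := by
        rw [AddCircle.coe_eq_zero_iff]
        exact ⟨k / N, by simp⟩
      rw [this, sub_zero]
    rw [h4]
    have h5 : ((y : ℝ) : UnitAddCircle) - (((k : ℝ) / N : ℝ) : UnitAddCircle) =
        ((y - (k : ℝ) / N : ℝ) : UnitAddCircle) := (AddCircle.coe_sub _ _ _).symm
    show ‖((y : ℝ) : UnitAddCircle) - (((k : ℝ) / N : ℝ) : UnitAddCircle)‖ ≤ _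
    rw [h5, UnitAddCircle.norm_eq]
    have h6 : |y - (k : ℝ) / N - round (y - (k : ℝ) / N)| ≤ |y - (k : ℝ) / N - (0 : ℤ)| :=
      round_le _ 0
    refine h6.trans ?_
    rw [Int.cast_zero, sub_zero]
    have h7 := abs_sub_round (y * N)
    rw [← hk] at h7
    have h8 : y - (k : ℝ) / N = (y * N - k) / N := by field_simp
    rw [h8, abs_div, abs_of_pos hNr, div_le_iff₀ hNr]
    refine h7.trans ?_
    rw [hNr', pow_succ 2 (a + 1)]
    have : (2 : ℝ) ^ (a + 1) ≠ 0 := by positivity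
    field_simp
    rfl

theorem exists_gp (a b : ℕ) (x : Tor 2) : ∃ c ∈ grid a b,
    ‖x 0 - gp a b c 0‖ ≤ 1 / 2 ^ (a + 2) ∧ ‖x 1 - gp a b c 1‖ ≤ 1 / 2 ^ (b + 2) := by
  obtain ⟨c, hc, hc'⟩ := exists_gp_one a (x 0)
  obtain ⟨d, hd, hd'⟩ := exists_gp_one b (x 1)
  exact ⟨(c, d), Finset.mem_product.2 ⟨hc, hd⟩, hc', hd'⟩

end Pool.Agent.Helper59.MixInt
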