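import Pool.Agent.Helper59.MixRan.Rho

/-!
# The prior density: total mass and overlap with a translate
-/

open MeasureTheory
open scoped ENNReal

noncomputable section

namespace Pool.Agent.Helper59.MixInt

private theorem rr_cont : Continuous rrP := by
  unfold rrP
  fun_prop

private theorem rr_nonneg (x : ℝ) : 0 ≤ rrP x :=
  mul_nonneg (Real.sqrt_nonneg _) (le_max_left _ _)

private theorem rr_zero {x : ℝ} (h : 1 ≤ |x|) : rrP x = 0 := by
  unfold rrP
  rw [max_eq_left (by linarith), mul_zero]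

private theorem rr_sq (x : ℝ) : rrP x ^ 2 = 3 / 2 * (max 0 (1 - |x|)) ^ 2 := by
  unfold rrP
  rw [mul_pow, Real.sq_sqrt (by norm_num)]

private theorem rr_diff (x y : ℝ) : (rrP x - rrP y) ^ 2 ≤ 3 / 2 * (x - y) ^ 2 := by
  unfold rrP
  rw [← mul_sub, mul_pow, Real.sq_sqrt (by norm_num)]
  have h1 : |max 0 (1 - |x|) - max 0 (1 - |y|)| ≤ |x - y| := by
    have h2 := abs_max_sub_max_le_abs (1 - |x|) (1 - |y|) 0
    rw [max_comm (1 - |x|) 0, max_comm (1 - |y|) 0] at h2
    have h3 : (1 - |x|) - (1 - |y|) = -(|x| - |y|) := by ring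
    rw [h3, abs_neg] at h2
    exact h2.trans (abs_abs_sub_abs_le x y)
  have h4 : (max 0 (1 - |x|) - max 0 (1 - |y|)) ^ 2 ≤ (x - y) ^ 2 := by
    rw [← sq_abs, ← sq_abs (x - y)]
    exact pow_le_pow_left₀ (abs_nonneg _) h1 2
  linarith

private theorem cpt_int {f : ℝ → ℝ} (hf : Continuous f) {a : ℝ} (h0 : ∀ x, a < |x| → f x = 0) :
    Integrable f :=
  hf.integrable_of_hasCompactSupport
    (HasCompactSupport.intro (isCompact_Icc (a := -a) (b := a)) fun x hx => h0 x (by
      by_contra hc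
      exact hx (abs_le.1 (not_lt.1 hc))))

private theorem rr_int_sq : Integrable (fun x => rrP x ^ 2) :=
  cpt_int (a := 1) (rr_cont.pow 2) fun x hx => by rw [rr_zero hx.le]; norm_num

private theorem rr_int_mul (w : ℝ) : Integrable (fun x => rrP x * rrP (x + w)) :=
  cpt_int (a := 1) (rr_cont.mul (rr_cont.comp (continuous_id.add continuous_const)))
    fun x hx => by rw [rr_zero hx.le, zero_mul]

private theorem rr_left : ∫ x in (-1 : ℝ)..0, 3 / 2 * (1 + x) ^ 2 = 1 / 2 := by
  have h : ∀ x ∈ Set.uIcc (-1 : ℝ) 0,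
      HasDerivAt (fun x : ℝ => (1 + x) ^ 3 / 2) (3 / 2 * (1 + x) ^ 2) x := by
    intro x _
    have h1 := (((hasDerivAt_id x).const_add 1).pow 3).div_const 2
    refine h1.congr_deriv ?_
    simp only [id_eq]
    push_cast
    ring
  rw [intervalIntegral.integral_eq_sub_of_hasDerivAt h
    (Continuous.intervalIntegrable (by fun_prop) _ _)]
  norm_num

private theorem rr_right : ∫ x in (0 : ℝ)..1, 3 / 2 * (1 - x) ^ 2 = 1 / 2 := by
  have h : ∀ x ∈ Set.uIcc (0 : ℝ) 1,
      HasDerivAt (fun x : ℝ => -(1 - x) ^ 3 / 2) (3 / 2 * (1 - x) ^ 2) x := by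
    intro x _
    have h1 := ((((hasDerivAt_id x).const_sub 1).pow 3).neg).div_const 2
    refine h1.congr_deriv ?_
    simp only [id_eq]
    push_cast
    ring
  rw [intervalIntegral.integral_eq_sub_of_hasDerivAt h
    (Continuous.intervalIntegrable (by fun_prop) _ _)]
  norm_num

private theorem rr_one : ∫ x, rrP x ^ 2 = 1 := by
  have h1 : ∫ x in (-1 : ℝ)..1, rrP x ^ 2 = ∫ x, rrP x ^ 2 := by
    refine intervalIntegral.integral_eq_integral_of_support_subset fun x hx => ?_
    have h2 : rrP x ≠ 0 := fun h => hx (by simp [h])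
    have h3 : |x| < 1 := by
      by_contra hc
      exact h2 (rr_zero (not_lt.1 hc))
    exact ⟨(abs_lt.1 h3).1, (abs_lt.1 h3).2.le⟩
  have hi : ∀ a b : ℝ, IntervalIntegrable (fun x => rrP x ^ 2) volume a b := fun a b =>
    (rr_cont.pow 2).intervalIntegrable a b
  rw [← h1, ← intervalIntegral.integral_add_adjacent_intervals (hi (-1) 0) (hi 0 1)]
  have h4 : ∫ x in (-1 : ℝ)..0, rrP x ^ 2 = ∫ x in (-1 : ℝ)..0, 3 / 2 * (1 + x) ^ 2 := by
    refine intervalIntegral.integral_congr fun x hx => ?_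
    rw [Set.uIcc_of_le (by norm_num)] at hx
    rw [rr_sq, abs_of_nonpos hx.2, max_eq_right (by linarith [hx.1])]
    ring
  have h5 : ∫ x in (0 : ℝ)..1, rrP x ^ 2 = ∫ x in (0 : ℝ)..1, 3 / 2 * (1 - x) ^ 2 := by
    refine intervalIntegral.integral_congr fun x hx => ?_
    rw [Set.uIcc_of_le (by norm_num)] at hx
    rw [rr_sq, abs_of_nonneg hx.1, max_eq_right (by linarith [hx.2])]
  rw [h4, h5, rr_left, rr_right]
  norm_num

private theorem rr_overlap {w : ℝ} (hw : |w| ≤ 1) :
    1 - 3 * w ^ 2 ≤ ∫ x, rrP x * rrP (x + w) := by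
  obtain ⟨hw1, hw2⟩ := abs_le.1 hw
  have hc : Continuous fun x => rrP (x + w) :=
    rr_cont.comp (continuous_id.add continuous_const)
  have hg : Continuous fun x => (rrP (x + w) - rrP x) ^ 2 := (hc.sub rr_cont).pow 2
  have h1 : ∫ x in (-2 : ℝ)..2, (rrP (x + w) - rrP x) ^ 2 = ∫ x, (rrP (x + w) - rrP x) ^ 2 := by
    refine intervalIntegral.integral_eq_integral_of_support_subset fun x hx => ?_
    by_contra hc
    refine hx ?_
    have h2 : x ≤ -2 ∨ 2 < x := by
      by_contra h3
      rw [not_or, not_le, not_lt] at h3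
      exact hc ⟨h3.1, h3.2⟩
    have h3 : 1 ≤ |x| := by
      rcases h2 with h | h
      · exact le_abs.2 (Or.inr (by linarith))
      · exact le_abs.2 (Or.inl (by linarith))
    have h4 : 1 ≤ |x + w| := by
      rcases h2 with h | h
      · exact le_abs.2 (Or.inr (by linarith))
      · exact le_abs.2 (Or.inl (by linarith))
    simp only
    rw [rr_zero h3, rr_zero h4]
    norm_num
  have h2 : ∫ x in (-2 : ℝ)..2, (rrP (x + w) - rrP x) ^ 2 ≤
      ∫ x in (-2 : ℝ)..2, 3 / 2 * w ^ 2 := by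
    refine intervalIntegral.integral_mono_on (by norm_num) (hg.intervalIntegrable _ _)
      (continuous_const.intervalIntegrable _ _) fun x _ => ?_
    have h3 := rr_diff (x + w) x
    rwa [show x + w - x = w by ring] at h3
  rw [h1, intervalIntegral.integral_const, smul_eq_mul] at h2
  have i1 : Integrable (fun x => rrP (x + w) ^ 2) := rr_int_sq.comp_add_right w
  have e1 : ∫ x, rrP (x + w) ^ 2 = 1 := by
    rw [integral_add_right_eq_self (fun x => rrP x ^ 2) w, rr_one]
  have e2 : ∫ x, (rrP (x + w) - rrP x) ^ 2 = 2 - 2 * ∫ x, rrP x * rrP (x + w) := by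
    have e3 : ∀ x, (rrP (x + w) - rrP x) ^ 2 =
        rrP (x + w) ^ 2 + rrP x ^ 2 - 2 * (rrP x * rrP (x + w)) := fun x => by ring
    simp only [e3]
    have i2 : Integrable (fun x => rrP (x + w) ^ 2 + rrP x ^ 2) := i1.add rr_int_sq
    rw [integral_sub i2 ((rr_int_mul w).const_mul 2), integral_add i1 rr_int_sq,
      integral_const_mul, e1, rr_one]
    norm_num
  rw [e2] at h2
  linarith

private theorem weier {B : Type} (s : Finset B) (x : B → ℝ) (h : ∀ b, 0 ≤ x b ∧ x b ≤ 1) :
    1 - ∑ b ∈ s, x b ≤ ∏ b ∈ s, (1 - x b) := by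
  classical
  induction s using Finset.induction_on with
  | empty => simp
  | insert a s ha ih =>
    rw [Finset.sum_insert ha, Finset.prod_insert ha]
    have h1 : ∏ b ∈ s, (1 - x b) ≤ 1 :=
      Finset.prod_le_one (fun b _ => by linarith [(h b).2]) fun b _ => by linarith [(h b).1]
    nlinarith [(h a).1, (h a).2]

theorem rhoP_nonneg {B : Type} [Fintype B] (u : B → ℝ) : 0 ≤ rhoP u :=
  Finset.prod_nonneg fun _ _ => sq_nonneg _

private theorem rho_cont {B : Type} [Fintype B] : Continuous (rhoP (B := B)) :=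
  continuous_finsetProd _ fun b _ => (rr_cont.comp (continuous_apply b)).pow 2

theorem measurable_rhoP {B : Type} [Fintype B] : Measurable (rhoP (B := B)) := rho_cont.measurable

theorem abs_le_of_rhoP {B : Type} [Fintype B] {u : B → ℝ} (h : rhoP u ≠ 0) (b : B) : |u b| ≤ 1 := by
  by_contra hc
  refine h (Finset.prod_eq_zero (Finset.mem_univ b) ?_)
  rw [rr_zero (not_le.1 hc).le]
  norm_num

private theorem rho_int {B : Type} [Fintype B] : Integrable (rhoP (B := B)) :=
  Integrable.fintype_prod (f := fun (_ : B) (x : ℝ) => rrP x ^ 2) fun _ => rr_int_sq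

private theorem rho_one {B : Type} [Fintype B] : ∫ u : B → ℝ, rhoP u = 1 := by
  have h := integral_fintype_prod_volume_eq_prod (ι := B) (𝕜 := ℝ)
    (fun (_ : B) (x : ℝ) => rrP x ^ 2)
  simp only [rr_one, Finset.prod_const_one] at h
  exact h

theorem lintegral_rhoP {B : Type} [Fintype B] :
    ∫⁻ u : B → ℝ, ENNReal.ofReal (rhoP u) = 1 := by
  rw [← ofReal_integral_eq_lintegral_ofReal rho_int (Filter.Eventually.of_forall rhoP_nonneg),
    rho_one, ENNReal.ofReal_one]

theorem overlap {B : Type} [Fintype B] (w : B → ℝ) (hw : ∑ b, w b ^ 2 ≤ 1 / 6) :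
    ENNReal.ofReal (1 / 8) ≤ ∫⁻ u : B → ℝ, ENNReal.ofReal (min (rhoP u) (rhoP (u + w))) := by
  have hwb : ∀ b, w b ^ 2 ≤ 1 / 6 := fun b =>
    (Finset.single_le_sum (f := fun b => w b ^ 2) (fun i _ => sq_nonneg _)
      (Finset.mem_univ b)).trans hw
  have hwa : ∀ b, |w b| ≤ 1 := fun b => by
    have h := hwb b
    rw [← sq_abs] at h
    nlinarith [abs_nonneg (w b)]
  have i1 : Integrable (fun u : B → ℝ => rhoP u) := rho_int
  have i2 : Integrable (fun u : B → ℝ => rhoP (u + w)) := rho_int.comp_add_right w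
  have e2 : ∫ u : B → ℝ, rhoP (u + w) = 1 := by
    rw [integral_add_right_eq_self (fun u : B → ℝ => rhoP u) w, rho_one]
  have i3 : Integrable (fun u : B → ℝ => ∏ b, rrP (u b) * rrP (u b + w b)) :=
    Integrable.fintype_prod (f := fun (b : B) (x : ℝ) => rrP x * rrP (x + w b))
      fun b => rr_int_mul (w b)
  have e3 : (1 : ℝ) / 2 ≤ ∫ u : B → ℝ, ∏ b, rrP (u b) * rrP (u b + w b) := by
    have h := integral_fintype_prod_volume_eq_prod (ι := B) (𝕜 := ℝ)
      (fun (b : B) (x : ℝ) => rrP x * rrP (x + w b))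
    rw [h]
    have h1 : ∏ b, (1 - 3 * w b ^ 2) ≤ ∏ b, ∫ x, rrP x * rrP (x + w b) :=
      Finset.prod_le_prod (fun b _ => by linarith [hwb b]) fun b _ => rr_overlap (hwa b)
    have h2 := weier Finset.univ (fun b => 3 * w b ^ 2) fun b =>
      ⟨by positivity, by linarith [hwb b]⟩
    rw [← Finset.mul_sum] at h2
    linarith
  have i4 : Integrable (fun u : B → ℝ => min (rhoP u) (rhoP (u + w))) := i1.inf i2
  have i5 : Integrable (fun u : B → ℝ => rhoP u + rhoP (u + w)) := i1.add i2
  have e4 : ∫ u : B → ℝ, ∏ b, rrP (u b) * rrP (u b + w b) ≤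
      ∫ u : B → ℝ, (2 * min (rhoP u) (rhoP (u + w)) + (1 / 8) * (rhoP u + rhoP (u + w))) := by
    refine integral_mono i3 ((i4.const_mul 2).add (i5.const_mul (1 / 8))) fun u => ?_
    have h1 : rhoP u = (∏ b, rrP (u b)) ^ 2 := by
      unfold rhoP
      rw [Finset.prod_pow]
    have h2 : rhoP (u + w) = (∏ b, rrP (u b + w b)) ^ 2 := by
      unfold rhoP
      rw [← Finset.prod_pow]
      rfl
    simp only
    rw [h1, h2, Finset.prod_mul_distrib]
    set A := ∏ b, rrP (u b)
    set C := ∏ b, rrP (u b + w b)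
    rcases le_total (A ^ 2) (C ^ 2) with h | h
    · rw [min_eq_left h]
      nlinarith [sq_nonneg (4 * A - C), sq_nonneg A]
    · rw [min_eq_right h]
      nlinarith [sq_nonneg (4 * C - A), sq_nonneg C]
  rw [integral_add (i4.const_mul 2) (i5.const_mul (1 / 8)), integral_const_mul,
    integral_const_mul, integral_add i1 i2, rho_one, e2] at e4
  rw [← ofReal_integral_eq_lintegral_ofReal i4 (Filter.Eventually.of_forall fun u =>
    le_min (rhoP_nonneg _) (rhoP_nonneg _))]
  exact ENNReal.ofReal_le_ofReal (by linarith)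

end Pool.Agent.Helper59.MixInt
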