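import Mathlib

/-!
# The prior density: definitions
-/

open MeasureTheory
open scoped ENNReal

noncomputable section

namespace Pool.Agent.Helper59.MixInt

/-- square root of the one-dimensional density -/
def rrP (x : ℝ) : ℝ := √(3 / 2) * max 0 (1 - |x|)

/-- the density of the prior -/
def rhoP {B : Type} [Fintype B] (u : B → ℝ) : ℝ := ∏ b, rrP (u b) ^ 2

end Pool.Agent.Helper59.MixInt
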