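import Pool.Agent.Helper59.MixInt.Fool
import Pool.Agent.Helper59.MixRan.Geo

/-!
# The norm of a trigonometric sum over the hyperbolic layer (helper99)
-/

open MeasureTheory UnitAddTorus Filter
open scoped ENNReal

noncomputable section

namespace Pool.Agent.Helper59.MixInt

/-- the complex coefficients of `tsm r u v` -/
private def tcoef (u v : (Fin 2 → ℤ) → ℝ) (h : Fin 2 → ℤ) : ℂ :=
  ((u h : ℂ) - v h * Complex.I) / 2 + ((u (-h) : ℂ) + v (-h) * Complex.I) / 2

private theorem norm_tcoef_le {u v : (Fin 2 → ℤ) → ℝ} (hu : ∀ h, |u h| ≤ 1) (hv : ∀ h, |v h| ≤ 1)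
    (h : Fin 2 → ℤ) : ‖tcoef u v h‖ ^ 2 ≤ 4 := by
  have h1 : ‖tcoef u v h‖ ≤ 2 := by
    unfold tcoef
    have a1 : ‖((u h : ℂ) - v h * Complex.I) / 2‖ ≤ 1 := by
      rw [norm_div, Complex.norm_ofNat, div_le_one (by norm_num)]
      refine (norm_sub_le _ _).trans ?_
      rw [norm_mul, Complex.norm_I, Complex.norm_real, Complex.norm_real, Real.norm_eq_abs,
        Real.norm_eq_abs]
      linarith [hu h, hv h]
    have a2 : ‖((u (-h) : ℂ) + v (-h) * Complex.I) / 2‖ ≤ 1 := by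
      rw [norm_div, Complex.norm_ofNat, div_le_one (by norm_num)]
      refine (norm_add_le _ _).trans ?_
      rw [norm_mul, Complex.norm_I, Complex.norm_real, Complex.norm_real, Real.norm_eq_abs,
        Real.norm_eq_abs]
      linarith [hu (-h), hv (-h)]
    calc _ ≤ _ := norm_add_le _ _
      _ ≤ 1 + 1 := add_le_add a1 a2
      _ = 2 := by norm_num
  calc ‖tcoef u v h‖ ^ 2 ≤ 2 ^ 2 := pow_le_pow_left₀ (norm_nonneg _) h1 2
    _ = 4 := by norm_num

private theorem conj_mFourier (h : Fin 2 → ℤ) (x : Tor 2) :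
    starRingEnd ℂ (mFourier h x) = mFourier (-h) x := mFourier_neg.symm

private theorem tsm_ofReal (r : ℕ) (u v : (Fin 2 → ℤ) → ℝ) (x : Tor 2) :
    (tsm r u v x : ℂ) = ∑ h ∈ Lam r, tcoef u v h * mFourier h x := by
  have h1 : ∀ h ∈ Lam r, ((u h * (mFourier h x).re + v h * (mFourier h x).im : ℝ) : ℂ) =
      ((u h : ℂ) - v h * Complex.I) / 2 * mFourier h x +
        ((u h : ℂ) + v h * Complex.I) / 2 * mFourier (-h) x := by
    intro h _
    rw [← conj_mFourier]
    have e := Complex.re_add_im (mFourier h x)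
    set a := (mFourier h x).re
    set b := (mFourier h x).im
    rw [← e]
    simp only [map_add, map_mul, Complex.conj_ofReal, Complex.conj_I]
    push_cast
    have hI : Complex.I * Complex.I = -1 := Complex.I_mul_I
    linear_combination ((v h : ℂ) * b) * hI
  have h2 : ∑ h ∈ Lam r, ((u h : ℂ) + v h * Complex.I) / 2 * mFourier (-h) x =
      ∑ h ∈ Lam r, ((u (-h) : ℂ) + v (-h) * Complex.I) / 2 * mFourier h x := by
    refine Finset.sum_nbij' (fun h => -h) (fun h => -h) (fun h hh => neg_mem_Lam.2 hh)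
      (fun h hh => neg_mem_Lam.2 hh) (fun h _ => neg_neg h) (fun h _ => neg_neg h) ?_
    intro h _
    rw [neg_neg]
  unfold tsm
  rw [Complex.ofReal_sum, Finset.sum_congr rfl h1, Finset.sum_add_distrib, h2,
    ← Finset.sum_add_distrib]
  refine Finset.sum_congr rfl fun h _ => ?_
  unfold tcoef
  ring

/-- M4a -/
theorem mixNormSq_tsm_le {k : ℝ} (hk : 0 ≤ k) (r : ℕ) (u v : (Fin 2 → ℤ) → ℝ)
    (hu : ∀ h, |u h| ≤ 1) (hv : ∀ h, |v h| ≤ 1) :
    mixNormSq k (tsm r u v) ≤ ENNReal.ofReal (4 * (4 * (r : ℝ) ^ 2) ^ k * (Lam r).card) := by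
  have hcoef : ∀ h, mFourierCoeff (fun x => (tsm r u v x : ℂ)) h =
      if h ∈ Lam r then tcoef u v h else 0 := by
    intro h
    simp only [tsm_ofReal]
    exact mFourierCoeff_trig (Lam r) (tcoef u v) h
  unfold mixNormSq
  rw [tsum_eq_sum (s := Lam r)]
  · calc ∑ h ∈ Lam r, ENNReal.ofReal (‖mFourierCoeff (fun x => (tsm r u v x : ℂ)) h‖ ^ 2 *
          ∏ j, (1 + (h j : ℝ) ^ 2) ^ k)
        ≤ ∑ h ∈ Lam r, ENNReal.ofReal (4 * (4 * (r : ℝ) ^ 2) ^ k) := by
          refine Finset.sum_le_sum fun h hh => ENNReal.ofReal_le_ofReal ?_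
          rw [hcoef, if_pos hh]
          exact mul_le_mul (norm_tcoef_le hu hv h) (weight_le hh hk)
            (Finset.prod_nonneg fun j _ => by positivity) (by norm_num)
      _ = ENNReal.ofReal (4 * (4 * (r : ℝ) ^ 2) ^ k * (Lam r).card) := by
          rw [Finset.sum_const, nsmul_eq_mul, mul_comm (4 * (4 * (r : ℝ) ^ 2) ^ k),
            ENNReal.ofReal_mul (p := ((Lam r).card : ℝ)) (by positivity), ENNReal.ofReal_natCast]
  · intro h hh
    rw [hcoef, if_neg hh]
    simp

/-- M4a: the real coefficients of `gg` and their sum of squares -/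
theorem gg_eq_tsm {n : ℕ} (r : ℕ) (P : Fin n → Tor 2) :
    ∃ u v : (Fin 2 → ℤ) → ℝ, (∀ x, gg r P x = tsm r u v x) ∧
      ∑ h ∈ Lam r, (u h ^ 2 + v h ^ 2) = X1 r P := by
  refine ⟨fun h => (cc r P h).re, fun h => -(cc r P h).im, fun x => ?_, ?_⟩
  · have h1 := congrArg Complex.re (gg_ofReal r P x)
    rw [Complex.ofReal_re, Complex.re_sum] at h1
    rw [h1]
    unfold tsm
    refine Finset.sum_congr rfl fun h _ => ?_
    rw [Complex.mul_re]
    ring
  · unfold X1
    refine Finset.sum_congr rfl fun h _ => ?_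
    rw [Complex.sq_norm, Complex.normSq_apply]
    ring

end Pool.Agent.Helper59.MixInt
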